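import Pool.Agent.Lib.H21Steiner.Upper
import Pool.Agent.Lib.H21Steiner.Lower

/-!
# The maximal number of simultaneously optimal full topologies grows exponentially

For every dimension `d ≥ 2` there is a constant `C` with
`2 ^ ⌊(n - 1) / 10⌋ ≤ N_d(n) ≤ C ^ n` for all `n ≥ 3`.

Proof idea, upper bound.  The only property of a Steiner tree that is used is the following
separation property: if `p` and `q` lie on distinct edges then `|p q|` is at least the distance
from `p` to the nearer end of its edge.  It gives local packing bounds.  A hierarchy of nets of the
terminals gives `O(n)` hosts (net point, scale).  Each edge is placed on the hosts whose scale is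
comparable with the distance between the edge and the terminals; each host receives only boundedly
many edges, and the hosts of an edge form a connected set of the (sparse) graph of neighbouring
hosts.  So the topology is determined by a word of `O(n)` bits.

Proof idea, lower bound.  In the triangular lattice there is a cluster of five points such that the
shortest trees that join it to a very far point in a certain direction have two local topologies;
all the other topologies are longer by a fixed amount (dual certificates).  The far edges of the
two optimal trees are parallel but distinct.  If a leaf of a full tree is replaced by a small cherry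
with two much smaller copies of the cluster, the two possibilities `first, second topology` and
`second, first topology` are both realized, with exactly the same length.  A skeleton with many
leaves is grown in the same way, one cherry at a time, so that all other topologies stay longer by
a definite amount.
-/

namespace Pool.Agent.Results.MP_816b7a_co.ExponentialGrowth

open Pool.Agent.Lib.H21Steiner

/-- For every dimension `d ≥ 2` there is a constant `C` such that
`2 ^ ⌊(n - 1) / 10⌋ ≤ N_d(n) ≤ C ^ n` for all `n ≥ 3`. -/
theorem result (d : ℕ) (hd : 2 ≤ d) : ∃ C : ℕ, ∀ n : ℕ, 3 ≤ n →
    ((2 ^ ((n - 1) / 10) : ℕ) : ℕ∞) ≤ maxOptimal d n ∧ maxOptimal d n ≤ ((C ^ n : ℕ) : ℕ∞) :=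
  ⟨expConst d, fun n hn => ⟨le_maxOptimal hd hn, maxOptimal_le d n (by omega)⟩⟩

end Pool.Agent.Results.MP_816b7a_co.ExponentialGrowth
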