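import Pool.Agent.Lib.H21Simplex.Main

/-!
# Factorially many simultaneously optimal full topologies in high dimension

Let `n ≥ 3` and `2 ≤ k ≤ n`, where `k ≤ d` and `n ≤ k + 2 ^ (d + 1 - k)`, or `k = n = d + 1`. Then
`k! ≤ c * 2 ^ (k - s(k)) * N_d(n)`, where `s(k)` is the sum of the binary digits of `k`, so that
`2 ^ (k - s(k))` is the largest power of two that divides `k!`, and `c = gcd(3, n)` if `k = n` and
`c = 1` if `k < n`. With `k = n`: `N_d(n) ≥ n! / (gcd(3, n) * 2 ^ (n - s(n)))` for `3 ≤ n ≤ d + 1`,
which is the number of all full topologies for `n ≤ 5`.

Proof idea.  The terminals are the `k` vertices of a regular simplex and `n - k` vertices of a cube in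
the orthogonal complement (with the same centre); no three of them make an obtuse angle.  The
projection to the convex hull keeps a shortest tree in the hull.  At a terminal no two directions
into the hull make an obtuse angle, so in a shortest tree two edges cannot meet at a terminal, and
four edges cannot meet anywhere: every shortest tree is full.  The symmetric group `S_k` acts by
isometries, so it acts on the set of the optimal full topologies.  A permutation that fixes a topology
gives an automorphism of a tree of degrees one and three.  An automorphism that fixes both ends of an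
edge has an order that is a power of two, and a group of automorphisms of odd prime power order fixes
a vertex (it acts on `2 n - 2` vertices and on `4 n - 6` darts) and acts freely on the neighbours of
this vertex.  So the stabilizer of a topology in `S_k` has order `2 ^ a` or `3 * 2 ^ a`, the latter only
if `k = n` is divisible by three, and the size of the orbit is a multiple of the odd part of `k!`,
divided by three in this last case.
-/

namespace Pool.Agent.Results.MP_816b7a_co.HighDimension

open Pool.Agent.Lib.H21Steiner

/-- Let `n ≥ 3` and `2 ≤ k ≤ n`, where `k ≤ d` and `n ≤ k + 2 ^ (d + 1 - k)`, or `k = n = d + 1`. Then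
`k! ≤ c * 2 ^ (k - s(k)) * N_d(n)`, where `s(k)` is the sum of the binary digits of `k`, and
`c = gcd(3, n)` if `n = k`, and `c = 1` otherwise. -/
theorem result (d k n : ℕ) (hn : 3 ≤ n) (hk : 2 ≤ k) (hkn : k ≤ n)
    (h : k ≤ d ∧ n ≤ k + 2 ^ (d + 1 - k) ∨ k = d + 1 ∧ n = d + 1) :
    ((k.factorial : ℕ) : ℕ∞) ≤ (((if n = k then Nat.gcd 3 n else 1) *
      2 ^ (k - (Nat.digits 2 k).sum) : ℕ) : ℕ∞) * maxOptimal d n :=
  Pool.Agent.Lib.H21Simplex.factorial_le hn hk hkn h

end Pool.Agent.Results.MP_816b7a_co.HighDimension
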